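import Pool.Agent.H23.DM.TargetsG
import Pool.Agent.H31.SX.TargetsS
import Pool.Agent.H31.SX.TargetsD

/-! Board `dmh_modules`, row KE: the twelfth moment of a class (copy of helper68's tm12 row KE). -/

set_option autoImplicit false

open NumberField NumberField.InfinitePlace NumberField.Units
  NumberField.Units.dirichletUnitTheorem MeasureTheory Set Filter Complex
open scoped nonZeroDivisors ENNReal

namespace Pool.Agent.H42.DM.KE

open Pool.Agent.H25.HK Pool.Agent.H23.LB Pool.Agent.H23.LC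
open Pool.Agent.H28.RC (Rep ft idl)
open Pool.Agent.H29.DW (dg Rl lf wv Pos Wg cpar Ci om zs rv Wt PrG)
open Pool.Agent.H29.TC (Gn LC cq dvs AC MC)
open Pool.Agent.H31.SW (EE itg FF HD DB DS dif Pf GG G2 DD PP pF dK pz ps Tf WG)
open Pool.Agent.H31.SX (ND RK Gcd LK X_ME X_CD CD)
open Pool.Agent.H27.TM (Sh S4 lo Maj G3 kp El Cr Am mf Dl mc Ep Cls Spc bt th1)
open Pool.Agent.H23.DM

/-! ### The numbers -/

private lemma mono (D d r T l ε x : ℝ) (a b e m : ℕ) (hD : 1 ≤ D) (hd : 1 ≤ d) (hr : 1 ≤ r)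
    (hT : 1 ≤ T) (hl : 1 ≤ l) (ha : a ≤ 70) (hb : b ≤ 70) (he : e ≤ 70) (hm : m ≤ 11)
    (hx : x ≤ 2 + ε) :
    D ^ a * d ^ b * r ^ e * T ^ x * l ^ m ≤ (D * d * r) ^ 70 * T ^ (2 + ε) * l ^ 11 := by
  have h1 : D ^ a ≤ D ^ 70 := pow_le_pow_right₀ hD ha
  have h2 : d ^ b ≤ d ^ 70 := pow_le_pow_right₀ hd hb
  have h5 : r ^ e ≤ r ^ 70 := pow_le_pow_right₀ hr he
  have h3 : T ^ x ≤ T ^ (2 + ε) := Real.rpow_le_rpow_of_exponent_le hT hx
  have h4 : l ^ m ≤ l ^ 11 := pow_le_pow_right₀ hl hm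
  rw [mul_pow, mul_pow]
  gcongr

/-- the twelfth power of the pointwise bound -/
private lemma pw (C d r T l : ℝ) (hd : 1 ≤ d) (hT : 1 ≤ T) (hl : 1 ≤ l) :
    (C * r ^ 3 * d ^ (5 / 4 : ℝ) * T ^ (27 / 164 : ℝ) * l ^ (3 / 4 : ℝ)) ^ 12 =
      C ^ 12 * (d ^ 15 * r ^ 36 * T ^ (81 / 41 : ℝ) * l ^ 9) := by
  have h1 : (d ^ (5 / 4 : ℝ)) ^ 12 = d ^ 15 := by
    rw [← Real.rpow_natCast, ← Real.rpow_mul (by linarith), ← Real.rpow_natCast]
    norm_num
  have h2 : (T ^ (27 / 164 : ℝ)) ^ 12 = T ^ (81 / 41 : ℝ) := by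
    rw [← Real.rpow_natCast, ← Real.rpow_mul (by linarith)]
    norm_num
  have h3 : (l ^ (3 / 4 : ℝ)) ^ 12 = l ^ 9 := by
    rw [← Real.rpow_natCast, ← Real.rpow_mul (by linarith), ← Real.rpow_natCast]
    norm_num
  rw [mul_pow, mul_pow, mul_pow, mul_pow, h1, h2, h3]
  ring

private lemma core (ε C1 C2 C3 : ℝ) (hε : 0 < ε) (hC1 : 0 ≤ C1) (hC2 : 0 ≤ C2) (hC3 : 0 ≤ C3) :
    ∃ C : ℝ, 0 ≤ C ∧ ∀ (ι : Type) (J : Finset ι) (V : ι → ℝ) (D d r T Z l : ℝ), 1 ≤ D → 1 ≤ d →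
    1 ≤ r → 1 ≤ T → 0 ≤ Z → l = 1 + Z / T ^ (1 / 2 : ℝ) → (∀ j ∈ J, 0 ≤ V j) →
    (∀ j ∈ J, V j ≤ C1 * r ^ 3 * d ^ (5 / 4 : ℝ) * T ^ (27 / 164 : ℝ) * l ^ (3 / 4 : ℝ)) →
    (J.card : ℝ) ≤ C2 * (D * T) →
    (Z ≤ T → ∀ W : ℝ, 1 ≤ W → W ^ 6 ≤ T → ∀ J' : Finset ι, J' ⊆ J → (∀ j ∈ J', W ≤ V j) →
      (J'.card : ℝ) ≤ C3 * ((D * d ^ 2 * r ^ 4 * T ^ (ε / 28)) ^ 7 * (T ^ 2 / W ^ 12))) →
    ∑ j ∈ J, V j ^ 12 ≤ C * ((D * d * r) ^ 70 * T ^ (2 + ε) * l ^ 11) := by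
  refine ⟨C2 * C1 ^ 12 + C2 + (1 + 1 / Real.log 2 * (1 / (ε / 4))) * (2 ^ 12 * C3) +
    C3 * C1 ^ 12, by have := Real.log_pos one_lt_two; positivity, ?_⟩
  intro ι J V D d r T Z l hD hd hr hT hZ hl hV0 hV hcard hKC
  have hlog2 : 0 < Real.log 2 := Real.log_pos one_lt_two
  have hT0 : 0 < T := by linarith
  have hTh : 0 < T ^ (1 / 2 : ℝ) := Real.rpow_pos_of_pos hT0 _
  have hl1 : 1 ≤ l := by
    rw [hl]
    have : 0 ≤ Z / T ^ (1 / 2 : ℝ) := by positivity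
    linarith
  have hl0 : 0 < l := by linarith
  set S : ℝ := (D * d * r) ^ 70 * T ^ (2 + ε) * l ^ 11 with hS
  have hS0 : 0 ≤ S := by positivity
  have hV12 : ∀ j ∈ J, V j ^ 12 ≤ C1 ^ 12 * (d ^ 15 * r ^ 36 * T ^ (81 / 41 : ℝ) * l ^ 9) := by
    intro j hj
    rw [← pw C1 d r T l hd hT hl1]
    exact pow_le_pow_left₀ (hV0 j hj) (hV j hj) 12
  have hT7 : (T ^ (ε / 28)) ^ 7 = T ^ (ε / 4) := by
    rw [← Real.rpow_natCast, ← Real.rpow_mul hT0.le]
    congr 1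
    push_cast
    ring
  have hrest : 0 ≤ C2 + (1 + 1 / Real.log 2 * (1 / (ε / 4))) * (2 ^ 12 * C3) +
      C3 * C1 ^ 12 := by positivity
  rcases lt_or_ge T Z with hZT | hZT
  · -- the case `Z > T`
    have hlT : T ^ (1 / 2 : ℝ) ≤ l := by
      have h1 : T ^ (1 / 2 : ℝ) ≤ Z / T ^ (1 / 2 : ℝ) := by
        rw [le_div_iff₀ hTh, ← Real.rpow_add hT0]
        norm_num
        exact hZT.le
      rw [hl]; linarith
    have hTl2 : T ≤ l ^ 2 := by
      have h2 : (T ^ (1 / 2 : ℝ)) ^ 2 = T := by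
        rw [← Real.rpow_natCast, ← Real.rpow_mul hT0.le]
        norm_num
      rw [← h2]
      exact pow_le_pow_left₀ hTh.le hlT 2
    calc ∑ j ∈ J, V j ^ 12 ≤ ∑ _j ∈ J, C1 ^ 12 * (d ^ 15 * r ^ 36 * T ^ (81 / 41 : ℝ) * l ^ 9) :=
          Finset.sum_le_sum hV12
      _ = (J.card : ℝ) * (C1 ^ 12 * (d ^ 15 * r ^ 36 * T ^ (81 / 41 : ℝ) * l ^ 9)) := by
          rw [Finset.sum_const, nsmul_eq_mul]
      _ ≤ (C2 * (D * l ^ 2)) * (C1 ^ 12 * (d ^ 15 * r ^ 36 * T ^ (81 / 41 : ℝ) * l ^ 9)) := by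
          apply mul_le_mul_of_nonneg_right _ (by positivity)
          refine hcard.trans ?_
          gcongr
      _ = C2 * C1 ^ 12 * (D ^ 1 * d ^ 15 * r ^ 36 * T ^ (81 / 41 : ℝ) * l ^ 11) := by ring
      _ ≤ C2 * C1 ^ 12 * S := by
          apply mul_le_mul_of_nonneg_left _ (by positivity)
          exact mono D d r T l ε _ 1 15 36 11 hD hd hr hT hl1 (by norm_num) (by norm_num) (by norm_num)
            (by norm_num) (by norm_num; linarith)
      _ ≤ _ := by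
          have h5 : 0 ≤ (C2 + (1 + 1 / Real.log 2 * (1 / (ε / 4))) * (2 ^ 12 * C3) +
            C3 * C1 ^ 12) * S := mul_nonneg hrest hS0
          linarith
  -- the case `Z ≤ T`
  have hK := hKC hZT
  classical
  set J1 := J.filter fun j => V j < 1 with hJ1
  set J2 := J.filter fun j => 1 ≤ V j ∧ V j ^ 6 ≤ T with hJ2
  set J3 := J.filter fun j => 1 ≤ V j ∧ T < V j ^ 6 with hJ3
  have hsplit : ∑ j ∈ J, V j ^ 12 ≤ ∑ j ∈ J1, V j ^ 12 + ∑ j ∈ J2, V j ^ 12 +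
      ∑ j ∈ J3, V j ^ 12 := by
    rw [hJ1, hJ2, hJ3, Finset.sum_filter, Finset.sum_filter, Finset.sum_filter,
      ← Finset.sum_add_distrib, ← Finset.sum_add_distrib]
    apply Finset.sum_le_sum
    intro j hj
    have h0 : 0 ≤ V j ^ 12 := pow_nonneg (hV0 j hj) 12
    rcases lt_or_ge (V j) 1 with h | h
    · rw [if_pos h]
      have a1 : 0 ≤ (if 1 ≤ V j ∧ V j ^ 6 ≤ T then V j ^ 12 else 0) := by
        split_ifs; exacts [h0, le_refl _]
      have a2 : 0 ≤ (if 1 ≤ V j ∧ T < V j ^ 6 then V j ^ 12 else 0) := by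
        split_ifs; exacts [h0, le_refl _]
      linarith
    · rw [if_neg (not_lt.mpr h)]
      rcases le_or_gt (V j ^ 6) T with h' | h'
      · rw [if_pos ⟨h, h'⟩, if_neg (fun hh => absurd hh.2 (not_lt.mpr h'))]
        linarith
      · rw [if_neg (fun hh : 1 ≤ V j ∧ V j ^ 6 ≤ T => absurd hh.2 (not_le.mpr h')),
          if_pos (⟨h, h'⟩ : 1 ≤ V j ∧ T < V j ^ 6)]
        linarith
  -- (i)
  have hs1 : ∑ j ∈ J1, V j ^ 12 ≤ C2 * S := by
    calc ∑ j ∈ J1, V j ^ 12 ≤ ∑ _j ∈ J1, (1 : ℝ) := by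
          apply Finset.sum_le_sum
          intro j hj
          have hj' := (Finset.mem_filter.mp hj)
          exact pow_le_one₀ (hV0 j hj'.1) hj'.2.le
      _ = (J1.card : ℝ) := by rw [Finset.sum_const, nsmul_eq_mul, mul_one]
      _ ≤ (J.card : ℝ) := by exact_mod_cast Finset.card_filter_le _ _
      _ ≤ C2 * (D * T) := hcard
      _ = C2 * (D ^ 1 * d ^ 0 * r ^ 0 * T ^ (1 : ℝ) * l ^ 0) := by
          rw [Real.rpow_one]; ring
      _ ≤ C2 * S := by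
          apply mul_le_mul_of_nonneg_left _ hC2
          exact mono D d r T l ε _ 1 0 0 0 hD hd hr hT hl1 (by norm_num) (by norm_num) (by norm_num)
            (by norm_num) (by linarith)
  -- (ii)
  have hs2 : ∑ j ∈ J2, V j ^ 12 ≤ (1 + 1 / Real.log 2 * (1 / (ε / 4))) * (2 ^ 12 * C3) * S := by
    set M : ℕ := Nat.log 2 ⌊T⌋₊ + 1 with hM
    have hfl : ∀ j ∈ J2, 1 ≤ ⌊V j⌋₊ := by
      intro j hj
      have hj' := (Finset.mem_filter.mp hj).2
      exact Nat.le_floor (by exact_mod_cast hj'.1)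
    have hVT : ∀ j ∈ J2, V j ≤ T := by
      intro j hj
      have hj' := (Finset.mem_filter.mp hj).2
      calc V j = V j ^ 1 := (pow_one _).symm
        _ ≤ V j ^ 6 := pow_le_pow_right₀ hj'.1 (by norm_num)
        _ ≤ T := hj'.2
    have hmaps : ∀ j ∈ J2, Nat.log 2 ⌊V j⌋₊ ∈ Finset.range M := by
      intro j hj
      rw [Finset.mem_range, hM]
      have : Nat.log 2 ⌊V j⌋₊ ≤ Nat.log 2 ⌊T⌋₊ :=
        Nat.log_mono_right (Nat.floor_le_floor (hVT j hj))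
      omega
    rw [← Finset.sum_fiberwise_of_maps_to hmaps]
    have hfib : ∀ a ∈ Finset.range M, ∑ j ∈ J2.filter (fun j => Nat.log 2 ⌊V j⌋₊ = a), V j ^ 12 ≤
        2 ^ 12 * C3 * ((D * d ^ 2 * r ^ 4 * T ^ (ε / 28)) ^ 7 * T ^ 2) := by
      intro a _
      set Ja := J2.filter (fun j => Nat.log 2 ⌊V j⌋₊ = a) with hJa
      have hlow : ∀ j ∈ Ja, (2 : ℝ) ^ a ≤ V j := by
        intro j hj
        have hj' := Finset.mem_filter.mp hj
        have h1 : 2 ^ a ≤ ⌊V j⌋₊ := by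
          rw [← hj'.2]
          exact Nat.pow_log_le_self 2 (by have := hfl j hj'.1; omega)
        have h2 : ((2 ^ a : ℕ) : ℝ) ≤ (⌊V j⌋₊ : ℝ) := by exact_mod_cast h1
        have h3 : (⌊V j⌋₊ : ℝ) ≤ V j :=
          Nat.floor_le (hV0 j (Finset.mem_filter.mp hj'.1).1)
        push_cast at h2
        linarith
      have hupp : ∀ j ∈ Ja, V j ≤ 2 ^ (a + 1) := by
        intro j hj
        have hj' := Finset.mem_filter.mp hj
        have h1 : ⌊V j⌋₊ < 2 ^ (a + 1) := by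
          rw [← hj'.2]
          exact Nat.lt_pow_succ_log_self (by norm_num) _
        have h2 : ((⌊V j⌋₊ + 1 : ℕ) : ℝ) ≤ ((2 ^ (a + 1) : ℕ) : ℝ) := by exact_mod_cast h1
        have h3 : V j < ⌊V j⌋₊ + 1 := Nat.lt_floor_add_one _
        push_cast at h2
        linarith
      rcases Ja.eq_empty_or_nonempty with hem | hne
      · rw [hem, Finset.sum_empty]; positivity
      obtain ⟨j0, hj0⟩ := hne
      have hj0' := Finset.mem_filter.mp hj0
      have hW6 : ((2 : ℝ) ^ a) ^ 6 ≤ T :=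
        (pow_le_pow_left₀ (by positivity) (hlow j0 hj0) 6).trans
          (Finset.mem_filter.mp hj0'.1).2.2
      have hc := hK ((2 : ℝ) ^ a) (one_le_pow₀ (by norm_num)) hW6 Ja
        ((Finset.filter_subset _ _).trans (Finset.filter_subset _ _)) hlow
      have h2a : (0 : ℝ) < (2 : ℝ) ^ a := by positivity
      calc ∑ j ∈ Ja, V j ^ 12 ≤ ∑ _j ∈ Ja, ((2 : ℝ) ^ (a + 1)) ^ 12 := by
            apply Finset.sum_le_sum
            intro j hj
            exact pow_le_pow_left₀ (hV0 j (Finset.mem_filter.mp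
              (Finset.mem_filter.mp hj).1).1) (hupp j hj) 12
        _ = (Ja.card : ℝ) * ((2 : ℝ) ^ (a + 1)) ^ 12 := by
            rw [Finset.sum_const, nsmul_eq_mul]
        _ ≤ (C3 * ((D * d ^ 2 * r ^ 4 * T ^ (ε / 28)) ^ 7 * (T ^ 2 / ((2 : ℝ) ^ a) ^ 12))) *
            ((2 : ℝ) ^ (a + 1)) ^ 12 :=
            mul_le_mul_of_nonneg_right hc (by positivity)
        _ = 2 ^ 12 * C3 * ((D * d ^ 2 * r ^ 4 * T ^ (ε / 28)) ^ 7 * T ^ 2) := by
            rw [pow_succ, mul_pow]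
            field_simp
            ring
    have hMT : (M : ℝ) ≤ (1 + 1 / Real.log 2 * (1 / (ε / 4))) * T ^ (ε / 4) := by
      have h1 : (Nat.log 2 ⌊T⌋₊ : ℝ) ≤ Real.log T / Real.log 2 := by
        rw [le_div_iff₀ hlog2, ← Real.log_pow]
        apply Real.log_le_log (by positivity)
        have h2 : 2 ^ Nat.log 2 ⌊T⌋₊ ≤ ⌊T⌋₊ := by
          apply Nat.pow_log_le_self
          have : 1 ≤ ⌊T⌋₊ := Nat.le_floor (by exact_mod_cast hT)
          omega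
        have h3 : ((2 ^ Nat.log 2 ⌊T⌋₊ : ℕ) : ℝ) ≤ (⌊T⌋₊ : ℝ) := by exact_mod_cast h2
        push_cast at h3
        exact h3.trans (Nat.floor_le hT0.le)
      have h4 : Real.log T ≤ T ^ (ε / 4) / (ε / 4) :=
        Real.log_le_rpow_div hT0.le (by positivity)
      have h5 : 1 ≤ T ^ (ε / 4) := Real.one_le_rpow hT (by positivity)
      have h6 : Real.log T / Real.log 2 ≤ (T ^ (ε / 4) / (ε / 4)) / Real.log 2 :=
        div_le_div_of_nonneg_right h4 hlog2.le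
      have h7 : (M : ℝ) = Nat.log 2 ⌊T⌋₊ + 1 := by rw [hM]; push_cast; ring
      calc (M : ℝ) = Nat.log 2 ⌊T⌋₊ + 1 := h7
        _ ≤ (T ^ (ε / 4) / (ε / 4)) / Real.log 2 + T ^ (ε / 4) := by linarith
        _ = (1 + 1 / Real.log 2 * (1 / (ε / 4))) * T ^ (ε / 4) := by
            field_simp
            ring
    calc ∑ a ∈ Finset.range M, ∑ j ∈ J2.filter (fun j => Nat.log 2 ⌊V j⌋₊ = a), V j ^ 12
        ≤ ∑ _a ∈ Finset.range M, 2 ^ 12 * C3 * ((D * d ^ 2 * r ^ 4 * T ^ (ε / 28)) ^ 7 * T ^ 2) :=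
          Finset.sum_le_sum hfib
      _ = (M : ℝ) * (2 ^ 12 * C3 * ((D * d ^ 2 * r ^ 4 * T ^ (ε / 28)) ^ 7 * T ^ 2)) := by
          rw [Finset.sum_const, Finset.card_range, nsmul_eq_mul]
      _ ≤ ((1 + 1 / Real.log 2 * (1 / (ε / 4))) * T ^ (ε / 4)) *
          (2 ^ 12 * C3 * ((D * d ^ 2 * r ^ 4 * T ^ (ε / 28)) ^ 7 * T ^ 2)) :=
          mul_le_mul_of_nonneg_right hMT (by positivity)
      _ = (1 + 1 / Real.log 2 * (1 / (ε / 4))) * (2 ^ 12 * C3) *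
          (D ^ 7 * d ^ 14 * r ^ 28 * T ^ (ε / 4 + ε / 4 + 2) * l ^ 0) := by
          rw [mul_pow, mul_pow, mul_pow, hT7, Real.rpow_add hT0, Real.rpow_add hT0, ← pow_mul, ← pow_mul]
          have : T ^ (2 : ℝ) = T ^ 2 := by
            rw [← Real.rpow_natCast]; norm_num
          rw [this]
          ring
      _ ≤ (1 + 1 / Real.log 2 * (1 / (ε / 4))) * (2 ^ 12 * C3) * S := by
          apply mul_le_mul_of_nonneg_left _ (by positivity)
          exact mono D d r T l ε _ 7 14 28 0 hD hd hr hT hl1 (by norm_num) (by norm_num) (by norm_num)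
            (by norm_num) (by linarith)
  -- (iii)
  have hs3 : ∑ j ∈ J3, V j ^ 12 ≤ C3 * C1 ^ 12 * S := by
    have hW1 : 1 ≤ T ^ (1 / 6 : ℝ) := Real.one_le_rpow hT (by norm_num)
    have hW6 : (T ^ (1 / 6 : ℝ)) ^ 6 = T := by
      rw [← Real.rpow_natCast, ← Real.rpow_mul hT0.le]
      norm_num
    have hW12 : (T ^ (1 / 6 : ℝ)) ^ 12 = T ^ 2 := by
      calc (T ^ (1 / 6 : ℝ)) ^ 12 = ((T ^ (1 / 6 : ℝ)) ^ 6) ^ 2 := by rw [← pow_mul]
        _ = T ^ 2 := by rw [hW6]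
    have hlow : ∀ j ∈ J3, T ^ (1 / 6 : ℝ) ≤ V j := by
      intro j hj
      have hj' := Finset.mem_filter.mp hj
      have h1 : (T ^ (1 / 6 : ℝ)) ^ 6 ≤ V j ^ 6 := by rw [hW6]; exact hj'.2.2.le
      exact le_of_pow_le_pow_left₀ (by norm_num) (hV0 j hj'.1) h1
    have hc := hK (T ^ (1 / 6 : ℝ)) hW1 hW6.le J3 (Finset.filter_subset _ _) hlow
    rw [hW12, div_self (by positivity), mul_one] at hc
    calc ∑ j ∈ J3, V j ^ 12 ≤ ∑ _j ∈ J3, C1 ^ 12 * (d ^ 15 * r ^ 36 * T ^ (81 / 41 : ℝ) * l ^ 9) :=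
          Finset.sum_le_sum fun j hj => hV12 j (Finset.mem_filter.mp hj).1
      _ = (J3.card : ℝ) * (C1 ^ 12 * (d ^ 15 * r ^ 36 * T ^ (81 / 41 : ℝ) * l ^ 9)) := by
          rw [Finset.sum_const, nsmul_eq_mul]
      _ ≤ (C3 * (D * d ^ 2 * r ^ 4 * T ^ (ε / 28)) ^ 7) *
          (C1 ^ 12 * (d ^ 15 * r ^ 36 * T ^ (81 / 41 : ℝ) * l ^ 9)) :=
          mul_le_mul_of_nonneg_right hc (by positivity)
      _ = C3 * C1 ^ 12 * (D ^ 7 * d ^ 29 * r ^ 64 * T ^ (ε / 4 + 81 / 41 : ℝ) * l ^ 9) := by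
          rw [mul_pow, mul_pow, mul_pow, hT7, Real.rpow_add hT0]
          ring
      _ ≤ C3 * C1 ^ 12 * S := by
          apply mul_le_mul_of_nonneg_left _ (by positivity)
          exact mono D d r T l ε _ 7 29 64 9 hD hd hr hT hl1 (by norm_num) (by norm_num) (by norm_num)
            (by norm_num) (by linarith)
  have h0 : 0 ≤ C2 * C1 ^ 12 * S := by positivity
  linarith

/-! ### The theorem -/

section NF

variable {K : Type} [Field K] [NumberField K]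

private lemma dK_one : 1 ≤ dK K := by
  unfold dK
  rw [← Int.cast_abs]
  exact_mod_cast Int.one_le_abs (NumberField.discr_ne_zero K)

private lemma DD_nonneg (L : FI K) (y : InfinitePlace K → ℝ) : 0 ≤ DD L y := by
  unfold DD
  have : (0 : ℝ) ≤ (FractionalIdeal.absNorm L : ℝ) := by
    exact_mod_cast FractionalIdeal.absNorm_nonneg L
  positivity

private lemma PP_one (R : InfinitePlace K → ℝ) (h : ∀ v, 1 ≤ R v) : 1 ≤ PP R := by
  unfold PP
  calc (1 : ℝ) = ∏ _v : InfinitePlace K, (1 : ℝ) := by simp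
    _ ≤ _ := Finset.prod_le_prod (fun _ _ => zero_le_one) fun v _ => one_le_pow₀ (h v)

private lemma PP_mono (R R' : InfinitePlace K → ℝ) (h0 : ∀ v, 0 ≤ R v) (h : ∀ v, R v ≤ R' v) :
    PP R ≤ PP R' := by
  unfold PP
  exact Finset.prod_le_prod (fun v _ => pow_nonneg (h0 v) _) fun v _ =>
    pow_le_pow_left₀ (h0 v) (h v) _

private lemma PP_two (R : InfinitePlace K → ℝ) :
    PP (fun v => 2 * R v) = 2 ^ Module.finrank ℚ K * PP R := by
  unfold PP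
  simp_rw [mul_pow]
  rw [Finset.prod_mul_distrib, Finset.prod_pow_eq_pow_sum, sum_mult_eq]

private lemma Nf_one {I : Ideal (𝓞 K)} (hI : I ≠ ⊥) : 1 ≤ Nf K I := by
  unfold Nf
  have : 0 < Ideal.absNorm I := Nat.pos_of_ne_zero (by rwa [Ne, Ideal.absNorm_eq_zero_iff])
  exact_mod_cast this

open scoped Classical in
private lemma sum_eq (p : Bool → ℂ → ℂ) (I : Ideal (𝓞 K)) (M : FI K)
    (y : InfinitePlace K → ℝ) (ω : InfinitePlace K → ℂ) (ρ : K) (q : K → ℂ)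
    (c : InfinitePlace K → ℂ) (hρ : ρ ∈ M) :
    ∑' x : {x : K // x ∈ M}, ci K I M ρ x * q x * pF (fun v => GG (p (rv v)) (c v)) y ω x =
      SQ p ((I : FI K) * M) y ω ρ q c := by
  unfold SQ
  set G : K → ℂ := fun x => q x * pF (fun v => GG (p (rv v)) (c v)) y ω x with hG
  have hle : ((I : FI K) * M) ≤ M := by
    calc ((I : FI K) * M) ≤ 1 * M := by
          gcongr
          exact FractionalIdeal.coeIdeal_le_one
      _ = M := one_mul M
  have h1 : ∑' x : {x : K // x ∈ M}, ci K I M ρ x * q x *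
      pF (fun v => GG (p (rv v)) (c v)) y ω x =
      ∑' x : K, {x : K | x ∈ M}.indicator
        (fun x => if x - ρ ∈ (I : FI K) * M then G x else 0) x := by
    rw [← tsum_subtype]
    apply tsum_congr
    intro x
    unfold ci
    split_ifs
    · rw [hG, one_mul]
    · rw [zero_mul, zero_mul]
  have h2 : ∑' x : {x : K // x ∈ (I : FI K) * M}, q (ρ + x) *
      pF (fun v => GG (p (rv v)) (c v)) y ω (ρ + x) =
      ∑' x : K, {x : K | x ∈ (I : FI K) * M}.indicator (fun x => G (ρ + x)) x := by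
    rw [← tsum_subtype]
    rfl
  rw [h1, h2, ← (Equiv.addLeft ρ).tsum_eq]
  apply tsum_congr
  intro x
  simp only [Equiv.coe_addLeft, Set.indicator, Set.mem_ofPred_eq, add_sub_cancel_left]
  by_cases hx : x ∈ (I : FI K) * M
  · have hx' : ρ + x ∈ M := by
      exact (M : Submodule (𝓞 K) K).add_mem (show ρ ∈ (M : Submodule (𝓞 K) K) from hρ)
        (show x ∈ (M : Submodule (𝓞 K) K) from hle hx)
    rw [if_pos hx', if_pos hx]
  · simp [hx]

end NF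

theorem pf_KE (hKC : D_KC) (hTC : D_TC) (hME : X_ME) (hCD : X_CD) : D_KE := by
  intro n ε p hn hε hp
  obtain ⟨C3, hC3, hKC⟩ := hKC n (ε / 28) p hn (by positivity) hp
  obtain ⟨C2, hC2, hTC⟩ := hTC n hn
  obtain ⟨C1, hC1, hME⟩ := hME n p hn hp
  set C1' : ℝ := C1 * (2 ^ n : ℝ) ^ (27 / 164 : ℝ) with hC1'
  have hC1'0 : 0 ≤ C1' := by positivity
  obtain ⟨C, hC, hcore⟩ := core ε C1' C2 C3 hε hC1'0 (by linarith) (by linarith)
  refine ⟨C, hC, ?_⟩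
  intro K _ _ hK l k κ θ M x₀ y ω ρ τ ι J η γ c D hFP hω hρ hKap hFM hτ hJ hD hD1
  have hk : k ≠ ⊥ := hFP.lk.k_ne
  have hl' : l ≠ ⊥ := hFP.lk.l_ne
  have hr : k.radical ≠ ⊥ := fun h => hk (le_bot_iff.mp (h ▸ Ideal.le_radical))
  have hNk : 1 ≤ Nf K k := Nf_one hk
  have hNl : 1 ≤ Nf K l := Nf_one hl'
  have hNr : 1 ≤ Nf K k.radical := Nf_one hr
  have hτ1 : 1 ≤ PP τ := PP_one τ hτ
  have hT1 : 1 ≤ Nf K k * PP τ := one_le_mul_of_one_le_of_one_le hNk hτ1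
  have hT0 : 0 < Nf K k * PP τ := by linarith
  have hZ0 : 0 ≤ DD M y / Nf K l := div_nonneg (DD_nonneg M y) (by linarith)
  have hd1 : 1 ≤ dK K := dK_one
  set Z := DD M y / Nf K l with hZ
  set T := Nf K k * PP τ with hT
  set s : ℝ := (1 + Z) ^ (1 / 2 : ℝ) with hs
  have hs0 : 0 < s := Real.rpow_pos_of_pos (by linarith) _
  have hs2 : s ^ 2 = 1 + Z := by
    rw [hs, ← Real.rpow_natCast, ← Real.rpow_mul (by linarith)]
    norm_num
  set Q : ι → ℂ := fun j => SQ p (((l * k.radical : Ideal (𝓞 K)) : FI K) * M) y ω ρ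
    (cq k (η j) M x₀) (c j) with hQ
  set V : ι → ℝ := fun j => ‖Q j‖ / s with hVdef
  have hVs : ∀ j, ‖Q j‖ = V j * s := by
    intro j
    rw [hVdef]
    field_simp
  have hV0 : ∀ j ∈ J, 0 ≤ V j := fun j _ => by positivity
  set l' : ℝ := 1 + Z / T ^ (1 / 2 : ℝ) with hl
  have hVle : ∀ j ∈ J, V j ≤ C1' * Nf K k.radical ^ 3 * dK K ^ (5 / 4 : ℝ) *
      T ^ (27 / 164 : ℝ) * l' ^ (3 / 4 : ℝ) := by
    intro j hj
    have hcl := hJ j hj
    have hcd := (hCD K l k hFP.lk (η j) (hFM.lc j hj) M x₀ hFP.M_ne hFP.gen).1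
    have h1 := hME K hK l k M (cq k (η j) M x₀) y ω (c j) ρ hl' hk hFP.M_ne hω hcd hcl.real hρ
    rw [sum_eq p (l * k.radical) M y ω ρ (cq k (η j) M x₀) (c j) hρ] at h1
    rw [← hZ] at h1
    set P := PP (fun v => 1 + ‖c j v‖) * Nf K k with hP
    have hP1 : T ≤ P := by
      rw [hT, hP, mul_comm]
      exact mul_le_mul_of_nonneg_right (PP_mono _ _ (fun v => by linarith [hτ v]) hcl.low)
        (by linarith)
    have hP2 : P ≤ 2 ^ n * T := by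
      have h2 : PP (fun v => 1 + ‖c j v‖) ≤ 2 ^ n * PP τ := by
        rw [← hK, ← PP_two]
        exact PP_mono _ _ (fun v => by positivity) hcl.upp
      calc P ≤ (2 ^ n * PP τ) * Nf K k := mul_le_mul_of_nonneg_right h2 (by linarith)
        _ = 2 ^ n * T := by rw [hT]; ring
    have hP0 : 0 < P := by linarith
    have hPa : P ^ (27 / 164 : ℝ) ≤ (2 ^ n : ℝ) ^ (27 / 164 : ℝ) * T ^ (27 / 164 : ℝ) := by
      rw [← Real.mul_rpow (by positivity) hT0.le]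
      exact Real.rpow_le_rpow hP0.le hP2 (by norm_num)
    have hPb : (1 + Z / P ^ (1 / 2 : ℝ)) ^ (3 / 4 : ℝ) ≤ l' ^ (3 / 4 : ℝ) := by
      apply Real.rpow_le_rpow (by positivity) _ (by norm_num)
      rw [hl]
      have h2 : T ^ (1 / 2 : ℝ) ≤ P ^ (1 / 2 : ℝ) :=
        Real.rpow_le_rpow hT0.le hP1 (by norm_num)
      have h3 : Z / P ^ (1 / 2 : ℝ) ≤ Z / T ^ (1 / 2 : ℝ) :=
        div_le_div_of_nonneg_left hZ0 (Real.rpow_pos_of_pos hT0 _) h2
      linarith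
    have h4 : ‖Q j‖ ≤ C1 * Nf K k.radical ^ 3 * dK K ^ (5 / 4 : ℝ) * s *
        ((2 ^ n : ℝ) ^ (27 / 164 : ℝ) * T ^ (27 / 164 : ℝ)) * l' ^ (3 / 4 : ℝ) := by
      refine h1.trans ?_
      have e1 : 0 ≤ C1 * Nf K k.radical ^ 3 * dK K ^ (5 / 4 : ℝ) * s := by positivity
      have e2 : C1 * Nf K k.radical ^ 3 * dK K ^ (5 / 4 : ℝ) * s * P ^ (27 / 164 : ℝ) ≤
          C1 * Nf K k.radical ^ 3 * dK K ^ (5 / 4 : ℝ) * s *
            ((2 ^ n : ℝ) ^ (27 / 164 : ℝ) * T ^ (27 / 164 : ℝ)) :=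
        mul_le_mul_of_nonneg_left hPa e1
      exact mul_le_mul e2 hPb (by positivity) (by positivity)
    have h5 : V j = ‖Q j‖ / s := rfl
    rw [h5, div_le_iff₀ hs0]
    refine h4.trans (le_of_eq ?_)
    rw [hC1']
    ring
  have hcard : (J.card : ℝ) ≤ C2 * (D * T) :=
    hTC K hK k ι J η c τ D hk hτ (fun j hj => (hFM.lc j hj).mc) hJ hD
  have hfin := hcore ι J V D (dK K) (Nf K k.radical) T Z l' hD1 hd1 hNr hT1 hZ0 hl hV0 hVle
    hcard (by
    intro hZT W hW1 hW6 J' hJ' hW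
    refine hKC K hK l k κ θ M x₀ y ω ρ τ ι J' η γ c D W hFP hω hρ hKap
      ⟨hFM.nd, fun j hj => hFM.lc j (hJ' hj), fun j hj => hFM.fq j (hJ' hj)⟩
      (fun j hj => hJ j (hJ' hj)) ?_ hD1 hZT hW1 hW6 ?_
    · classical
      intro η₀ c₀
      refine le_trans ?_ (hD η₀ c₀)
      exact_mod_cast Finset.card_le_card (Finset.filter_subset_filter _ hJ')
    · intro j hj
      have h6 := hVs j
      rw [hQ] at h6
      simp only at h6
      rw [h6, mul_pow, hs2]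
      exact mul_le_mul_of_nonneg_right (pow_le_pow_left₀ (by linarith) (hW j hj) 2)
        (by linarith))
  have hs12 : s ^ 12 = (1 + Z) ^ 6 := by
    rw [← hs2, ← pow_mul]
  calc ∑ j ∈ J, ‖Q j‖ ^ 12 = ∑ j ∈ J, V j ^ 12 * (1 + Z) ^ 6 := by
        apply Finset.sum_congr rfl
        intro j _
        rw [hVs j, mul_pow, hs12]
    _ = (∑ j ∈ J, V j ^ 12) * (1 + Z) ^ 6 := by rw [Finset.sum_mul]
    _ ≤ (C * ((D * dK K * Nf K k.radical) ^ 70 * T ^ (2 + ε) * l' ^ 11)) * (1 + Z) ^ 6 :=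
        mul_le_mul_of_nonneg_right hfin (by positivity)
    _ = _ := by ring

end Pool.Agent.H42.DM.KE
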